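import Pool.Agent.TH438.LL.I

/-!
# 1-3 trees with few distinct leaf-to-leaf path lengths

The supremum `c*` of all `c` such that every large 1-3 tree has leaf-to-leaf paths of `Ω(N^c)`
distinct lengths in `[0, N]` is at most `1 / (2 - log 2 / log (1 + √2)) < 0.8241`
(the bound known before is `1 / (2 - log 10 / log 13) > 0.907`).
-/

set_option autoImplicit false

namespace Pool.Agent.Results.MP_07218e_co.FewerLengths

open SimpleGraph

/-- `v` is a leaf: it has exactly one neighbour -/
def IsLeaf {n : ℕ} (T : SimpleGraph (Fin n)) (v : Fin n) : Prop := (T.neighborSet v).ncard = 1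

/-- 1-3 trees: trees in which every vertex has degree 1 or 3 -/
def IsOneThreeTree {n : ℕ} (T : SimpleGraph (Fin n)) : Prop :=
  T.IsTree ∧ ∀ v, (T.neighborSet v).ncard = 1 ∨ (T.neighborSet v).ncard = 3

/-- `L_N(T)`: the lengths in `{0, ..., N}` of the leaf-to-leaf paths of `T` -/
def leafLengths {n : ℕ} (T : SimpleGraph (Fin n)) (N : ℕ) : Set ℕ :=
  {l | l ≤ N ∧ ∃ u v, IsLeaf T u ∧ IsLeaf T v ∧ ∃ p : T.Walk u v, p.IsPath ∧ p.length = l}

/-- the property `P(c)` -/
def PropertyP (c : ℝ) : Prop := ∃ κ : ℝ, 0 < κ ∧ ∀ N : ℕ, 1 ≤ N → ∃ n0 : ℕ, ∀ n, n0 ≤ n →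
  Even n → ∀ T : SimpleGraph (Fin n), IsOneThreeTree T →
    κ * (N : ℝ) ^ c ≤ ((leafLengths T N).ncard : ℝ)

/-- `c*` -/
noncomputable def cStar : ℝ := sSup {c | 0 ≤ c ∧ c ≤ 1 ∧ PropertyP c}

/-- `c* ≤ 1 / (2 - log 2 / log (1 + √2)) < 0.8241`, and `P(c)` fails for every `c` above this
bound; the bound known before is larger than `0.907`. -/
theorem result :
    (∀ c : ℝ, 1 / (2 - Real.log 2 / Real.log (1 + √2)) < c → ¬ PropertyP c) ∧
    cStar ≤ 1 / (2 - Real.log 2 / Real.log (1 + √2)) ∧
    1 / (2 - Real.log 2 / Real.log (1 + √2)) < 0.8241 ∧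
    0.907 < 1 / (2 - Real.log 10 / Real.log 13) := by
  have s2 : (1.4142 : ℝ) < √2 := by
    rw [Real.lt_sqrt (by norm_num)]
    norm_num
  have s2' : √2 < 2 := by
    rw [Real.sqrt_lt' (by norm_num)]
    norm_num
  have s22 : √2 * √2 = 2 := Real.mul_self_sqrt (by norm_num)
  have ls : 0 < Real.log (1 + √2) := Real.log_pos (by linarith)
  have l2 : 0 < Real.log 2 := Real.log_pos (by norm_num)
  have l13 : 0 < Real.log 13 := Real.log_pos (by norm_num)
  have l10 : 0 < Real.log 10 := Real.log_pos (by norm_num)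
  have hlt : Real.log 2 < Real.log (1 + √2) := Real.log_lt_log (by norm_num) (by linarith)
  set x0 := Real.log 2 / Real.log (1 + √2) with hx0
  have hx00 : 0 < x0 := div_pos l2 ls
  have hx01 : x0 < 1 := (div_lt_one ls).2 hlt
  have hmain : ∀ c : ℝ, 1 / (2 - x0) < c → ¬ PropertyP c := by
    intro c hc hP
    have hc0 : 0 < c := lt_trans (by apply div_pos <;> linarith) hc
    have h1 : x0 < 2 - 1 / c := by
      have : 1 / c < 2 - x0 := by
        rw [div_lt_iff₀ (by linarith)] at hc
        rw [div_lt_iff₀ hc0]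
        linarith
      linarith
    obtain ⟨x, hx1, hx2⟩ := exists_between (lt_min h1 hx01)
    have hx3 : x < 2 - 1 / c := lt_of_lt_of_le hx2 (min_le_left _ _)
    have hx4 : x < 1 := lt_of_lt_of_le hx2 (min_le_right _ _)
    have hxpos : 0 < x := hx00.trans hx1
    have hc' : 1 / (2 - x) < c := by
      rw [div_lt_iff₀ (by linarith)]
      have : 1 / c < 2 - x := by linarith
      rw [div_lt_iff₀ hc0] at this
      linarith
    have hF : Pool.Agent.TH438.LL.Fam x := by
      refine Pool.Agent.TH438.LL.fam_of (√2 - 1) x (by linarith) (by linarith) hxpos hx4.le ?_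
      have e1 : (1 + (√2 - 1)) / (1 - (√2 - 1)) = 1 + √2 := by
        have : (1 - (√2 - 1)) ≠ 0 := by linarith
        rw [div_eq_iff this]
        nlinarith
      have e2 : (√2 - 1) ^ x * (1 + √2) ^ x = 1 := by
        rw [← Real.mul_rpow (by linarith) (by linarith)]
        have : (√2 - 1) * (1 + √2) = 1 := by nlinarith
        rw [this, Real.one_rpow]
      have e3 : 2 < (1 + √2) ^ x := by
        rw [← Real.log_lt_log_iff (by norm_num) (by positivity), Real.log_rpow (by linarith)]
        rwa [hx0, div_lt_iff₀ ls] at hx1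
      rw [e1, sub_mul, one_mul, e2]
      linarith
    refine Pool.Agent.TH438.LL.main hxpos.le hx4 hF hc' ?_
    obtain ⟨κ, hκ, h⟩ := hP
    refine ⟨κ, hκ, fun N hN => ?_⟩
    obtain ⟨n0, h0⟩ := h N hN
    exact ⟨n0, fun n hn he T h1 h2 => h0 n hn he T ⟨h1, h2⟩⟩
  refine ⟨hmain, ?_, ?_, ?_⟩
  · apply Real.sSup_le
    · rintro c ⟨-, -, hc⟩
      by_contra h
      exact hmain c (not_le.1 h) hc
    · apply div_nonneg zero_le_one
      linarith
  · have h : (89 : ℝ) * Real.log 2 < 70 * Real.log (1 + √2) := by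
      have h1 : (2 : ℝ) ^ 89 < (1 + √2) ^ 70 := by
        calc (2 : ℝ) ^ 89 < (2.4142 : ℝ) ^ 70 := by norm_num
          _ ≤ _ := pow_le_pow_left₀ (by norm_num) (by linarith) 70
      have : Real.log ((2 : ℝ) ^ 89) < Real.log ((1 + √2) ^ 70) :=
        Real.log_lt_log (by positivity) h1
      rw [Real.log_pow, Real.log_pow] at this
      exact_mod_cast this
    have h2 : x0 < 70 / 89 := by
      rw [hx0, div_lt_div_iff₀ ls (by norm_num)]
      linarith
    rw [div_lt_iff₀ (by linarith)]
    linarith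
  · have h : (114 : ℝ) * Real.log 13 < 127 * Real.log 10 := by
      have : Real.log ((13 : ℝ) ^ 114) < Real.log ((10 : ℝ) ^ 127) :=
        Real.log_lt_log (by positivity) (by norm_num)
      rw [Real.log_pow, Real.log_pow] at this
      exact_mod_cast this
    have h2 : (114 : ℝ) / 127 < Real.log 10 / Real.log 13 := by
      rw [div_lt_div_iff₀ (by norm_num) l13]
      linarith
    have h3 : Real.log 10 / Real.log 13 < 1 :=
      (div_lt_one l13).2 (Real.log_lt_log (by norm_num) (by norm_num))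
    rw [lt_div_iff₀ (by linarith)]
    linarith

end Pool.Agent.Results.MP_07218e_co.FewerLengths
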