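import Pool.Agent.TH438.LL.K
import Pool.Agent.TH438.LL.M

/-!
# Every large 1-3 tree has `Ω(N^(3/4))` distinct leaf-to-leaf path lengths in `[0, N]`

The lower bound `c* ≥ 3/4` (the bound known before is `2/3`).
-/

set_option autoImplicit false

namespace Pool.Agent.Results.MP_07218e_co.MoreLengths

open SimpleGraph

/-- `v` is a leaf: it has exactly one neighbour -/
def IsLeaf {n : ℕ} (T : SimpleGraph (Fin n)) (v : Fin n) : Prop := (T.neighborSet v).ncard = 1

/-- 1-3 trees: trees in which every vertex has degree 1 or 3 -/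
def IsOneThreeTree {n : ℕ} (T : SimpleGraph (Fin n)) : Prop :=
  T.IsTree ∧ ∀ v, (T.neighborSet v).ncard = 1 ∨ (T.neighborSet v).ncard = 3

/-- `L_N(T)`: the lengths in `{0, ..., N}` of the leaf-to-leaf paths of `T` -/
def leafLengths {n : ℕ} (T : SimpleGraph (Fin n)) (N : ℕ) : Set ℕ :=
  {l | l ≤ N ∧ ∃ u v, IsLeaf T u ∧ IsLeaf T v ∧ ∃ p : T.Walk u v, p.IsPath ∧ p.length = l}

/-- the property `P(c)` -/
def PropertyP (c : ℝ) : Prop := ∃ κ : ℝ, 0 < κ ∧ ∀ N : ℕ, 1 ≤ N → ∃ n0 : ℕ, ∀ n, n0 ≤ n →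
  Even n → ∀ T : SimpleGraph (Fin n), IsOneThreeTree T →
    κ * (N : ℝ) ^ c ≤ ((leafLengths T N).ncard : ℝ)

/-- `c*` -/
noncomputable def cStar : ℝ := sSup {c | 0 ≤ c ∧ c ≤ 1 ∧ PropertyP c}

open Pool.Agent.TH438.LL in
lemma bound {n : ℕ} (T : SimpleGraph (Fin n)) (hT : IsOneThreeTree T) (N G R l : ℕ) (y : ℝ)
    (hy : 1 ≤ y) (hyN : (N : ℝ) = y ^ 4) (hG : G = ⌊y ^ 3⌋₊) (hR : R = (N / G - 3) / 8)
    (hl : l = (G * (2 * (4 * R)) + 2 * (4 * R) + 1) * G + 2) (hn : 4 ^ (l + 2) < n) :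
    y ^ 3 ≤ 262144 * ((leafLengths T N).ncard : ℝ) := by
  classical
  have hfin : (leafLengths T N).Finite := (Set.finite_Iic N).subset fun x hx => hx.1
  set Λ := hfin.toFinset with hΛ
  have hcard : (leafLengths T N).ncard = Λ.card := Set.ncard_eq_toFinset_card _ hfin
  rw [hcard]
  have hmem : ∀ x, x ≤ N → x ∈ Ls T → x ∈ Λ := by
    intro x hx h
    rw [hΛ, Set.Finite.mem_toFinset]
    exact ⟨hx, h⟩
  have hy3 : (1 : ℝ) ≤ y ^ 3 := one_le_pow₀ hy
  have hG1 : 1 ≤ G := by
    rw [hG]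
    exact Nat.le_floor (by simpa using hy3)
  have hGle : (G : ℝ) ≤ y ^ 3 := by
    rw [hG]
    exact Nat.floor_le (by linarith)
  have hGlt : y ^ 3 < G + 1 := by
    rw [hG]
    exact Nat.lt_floor_add_one _
  have hG1' : (1 : ℝ) ≤ G := by exact_mod_cast hG1
  have htp := tree_part hT.1 hT.2 G l hn
  -- the set of lengths is not empty
  have hne : (1 : ℝ) ≤ Λ.card := by
    have h0 : ∃ x, x ∈ Ls T := by
      rcases htp with h | ⟨f, -, h⟩
      · exact ⟨_, h 1 le_rfl hG1⟩
      · exact ⟨_, h 0 1 (by norm_num) (by omega)⟩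
    obtain ⟨x, u, -, hu, -, -⟩ := h0
    have : 0 ∈ Λ := hmem 0 (Nat.zero_le _) ⟨u, u, hu, hu, Walk.nil, Walk.IsPath.nil, rfl⟩
    have : 0 < Λ.card := Finset.card_pos.2 ⟨0, this⟩
    exact_mod_cast this
  by_cases hbig : y < 64
  · have : y ^ 3 ≤ 64 ^ 3 := pow_le_pow_left₀ (by linarith) hbig.le 3
    linarith
  · push Not at hbig
    rcases htp with h | ⟨f, hf, h⟩
    · have h1 : (Finset.Ico 1 (G + 1)).card ≤ Λ.card := by
        apply Finset.card_le_card_of_injOn (fun g => 2 * g)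
        · intro g hg
          rw [Finset.mem_coe, Finset.mem_Ico] at hg
          refine Finset.mem_coe.2 (hmem _ ?_ (h g hg.1 (by omega)))
          have h2 : (2 * G : ℝ) ≤ N := by
            rw [hyN]
            have : y ^ 4 = y * y ^ 3 := by ring
            rw [this]
            nlinarith
          have h3 : 2 * G ≤ N := by exact_mod_cast h2
          change 2 * g ≤ N
          omega
        · intro a _ b _ hab
          simp only at hab
          omega
      rw [Nat.card_Ico] at h1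
      have h2 : (G : ℝ) ≤ Λ.card := by
        have : G ≤ Λ.card := by omega
        exact_mod_cast this
      linarith
    · have hq : N < G * (N / G + 1) := by
        rw [mul_add, mul_one]
        exact Nat.lt_mul_div_succ N hG1
      have hq' : y < (N / G : ℕ) + 1 := by
        have a1 : (N : ℝ) < G * ((N / G : ℕ) + 1) := by exact_mod_cast hq
        rw [hyN] at a1
        have a2 : y ^ 4 < y ^ 3 * ((N / G : ℕ) + 1) :=
          lt_of_lt_of_le a1 (mul_le_mul_of_nonneg_right hGle (by positivity))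
        have a3 : y ^ 4 = y ^ 3 * y := by ring
        rw [a3] at a2
        exact lt_of_mul_lt_mul_left a2 (by positivity)
      have hR1 : N / G ≤ 8 * R + 10 := by omega
      have hR2 : y ≤ 16 * R := by
        have a1 : ((N / G : ℕ) : ℝ) ≤ 8 * R + 10 := by exact_mod_cast hR1
        linarith
      have hq3 : 3 ≤ N / G := by
        have : (64 : ℝ) < (N / G : ℕ) + 1 := lt_of_le_of_lt hbig hq'
        have : (64 : ℝ) < ((N / G + 1 : ℕ) : ℝ) := by exact_mod_cast this
        have : 64 < N / G + 1 := by exact_mod_cast this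
        omega
      have hN' : (2 * (4 * R) + 3) * G ≤ N := by
        have a1 : 2 * (4 * R) + 3 ≤ N / G := by omega
        exact (Nat.mul_le_mul_right G a1).trans (Nat.div_mul_le_self N G)
      have h1 := additive f G R N l Λ hf hG1 (fun i j hij hj hx => hmem _ hx (h i j hij hj))
        (by omega) hN'
      have h2 : y ^ 2 / 2 ≤ ((G : ℝ) ^ 2 / 2) ^ ((1 : ℝ) / 3) := by
        have b1 : (y ^ 2 / 2) ^ 3 ≤ (G : ℝ) ^ 2 / 2 := by
          have b2 : y ^ 3 / 2 ≤ G := by linarith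
          have b3 : (y ^ 3 / 2) ^ 2 ≤ (G : ℝ) ^ 2 := pow_le_pow_left₀ (by positivity) b2 2
          have b4 : (y ^ 2 / 2) ^ 3 = (y ^ 3 / 2) ^ 2 / 2 := by ring
          rw [b4]
          linarith
        calc y ^ 2 / 2 = ((y ^ 2 / 2) ^ 3) ^ ((1 : ℝ) / 3) := by
              rw [← Real.rpow_natCast (y ^ 2 / 2) 3, ← Real.rpow_mul (by positivity)]
              norm_num
          _ ≤ _ := Real.rpow_le_rpow (by positivity) b1 (by norm_num)
      have h3 : y / 16 * (y ^ 2 / 2) ≤ 2 * Λ.card := by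
        refine le_trans ?_ h1
        exact mul_le_mul (by linarith) h2 (by positivity) (by positivity)
      have h4 : y / 16 * (y ^ 2 / 2) = y ^ 3 / 32 := by ring
      rw [h4] at h3
      linarith

/-- `P(3/4)` holds: every large 1-3 tree has leaf-to-leaf paths of `Ω(N^(3/4))` distinct lengths
in `[0, N]`. Hence `c* ≥ 3/4`. -/
theorem result : PropertyP (3 / 4) ∧ 3 / 4 ≤ cStar := by
  have hP : PropertyP (3 / 4) := by
    refine ⟨1 / 262144, by norm_num, fun N hN => ?_⟩
    set y : ℝ := (N : ℝ) ^ ((1 : ℝ) / 4) with hy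
    have hN1 : (1 : ℝ) ≤ N := by exact_mod_cast hN
    have hy1 : 1 ≤ y := Real.one_le_rpow hN1 (by norm_num)
    have hyN : (N : ℝ) = y ^ 4 := by
      rw [hy, ← Real.rpow_natCast, ← Real.rpow_mul (by linarith)]
      norm_num
    have hy3 : (N : ℝ) ^ ((3 : ℝ) / 4) = y ^ 3 := by
      rw [hy, ← Real.rpow_natCast, ← Real.rpow_mul (by linarith)]
      norm_num
    set G := ⌊y ^ 3⌋₊ with hG
    set R := (N / G - 3) / 8 with hR
    set l := (G * (2 * (4 * R)) + 2 * (4 * R) + 1) * G + 2 with hl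
    refine ⟨4 ^ (l + 2) + 1, fun n hn _ T hT => ?_⟩
    have := bound T hT N G R l y hy1 hyN hG hR hl (by omega)
    rw [hy3]
    linarith
  refine ⟨hP, ?_⟩
  unfold cStar
  refine le_csSup ⟨1, fun c hc => hc.2.1⟩ ⟨by norm_num, by norm_num, hP⟩

end Pool.Agent.Results.MP_07218e_co.MoreLengths
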